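import Pool.Agent.Lib.MP_79bff1_ag_E.MainV

set_option autoImplicit false

open Pool.Agent.BSub

namespace Pool.Agent.Results.MP_79bff1_ag.AllFactors

/-- Let `d ≥ 3`, `n ≥ 3`, and let `R` be the largest `r` with
`∑_{k ≤ r} (k ^ (d - 1) - 1) ≤ d (r n - r (r + 1) / 2)`. The border subrank `Q` of the generic
tensor in `(ℂ ^ n) ^ {⊗ d}` satisfies `(1 - 1 / d ^ 3) R - 3 d ^ 3 ≤ Q ≤ R`. -/
theorem result (d n : ℕ) (hd : 3 ≤ d) (hn : 3 ≤ n) : ∃ R : ℕ,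
    (∀ r : ℕ, r ≤ R ↔
      ∑ k ∈ Finset.range r, ((k + 1) ^ (d - 1) - 1) ≤ d * (r * n - r * (r + 1) / 2)) ∧
    Generic fun T : Tensor d n => borderSubrank T ≤ R ∧
      (1 - 1 / (d : ℝ) ^ 3) * R - 3 * (d : ℝ) ^ 3 ≤ borderSubrank T := by
  obtain ⟨R, hR, h⟩ := Pool.Agent.BSubE.all_exact (d := d) (n := n) hd hn
  refine ⟨R, hR, h.mono fun T hT => ⟨hT.1, ?_⟩⟩
  have h1 := hT.2.1
  have hd0 : (0 : ℝ) < (d : ℝ) ^ 3 := by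
    have : 0 < d := by omega
    positivity
  have h2 : (1 : ℕ) ≤ d ^ 3 := Nat.one_le_pow _ _ (by omega)
  have h3 : ((d : ℝ) ^ 3 - 1) * R ≤ (d : ℝ) ^ 3 * (borderSubrank T + 3 * (d : ℝ) ^ 3) := by
    have h4 : (((d ^ 3 - 1) * R : ℕ) : ℝ) ≤
        ((d ^ 3 * (borderSubrank T + 3 * d ^ 3) : ℕ) : ℝ) := by exact_mod_cast h1
    rw [Nat.cast_mul, Nat.cast_sub h2] at h4
    push_cast at h4
    exact h4
  have h5 : (1 - 1 / (d : ℝ) ^ 3) * R = ((d : ℝ) ^ 3 - 1) * R / (d : ℝ) ^ 3 := by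
    field_simp
  rw [h5, sub_le_iff_le_add, div_le_iff₀ hd0]
  linarith

end Pool.Agent.Results.MP_79bff1_ag.AllFactors
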