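import Pool.Agent.Lib.MP_79bff1_ag.Final
import Pool.Agent.Lib.MP_79bff1_ag.KapLim

set_option autoImplicit false

open Filter Topology Pool.Agent.BSub

namespace Pool.Agent.Results.MP_79bff1_ag.Asymptotics

/-- For every `d ≥ 3` the combinatorial min-max function `kap d r` satisfies
`kap d r / r ^ (d - 1) → κ` with `1 / d ^ 2 ≤ κ ≤ nu d`; the border subrank of the generic tensor
in `(ℂ ^ n) ^ {⊗ d}` exists, is determined by `kap` up to lower order terms for every `n`, and is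
asymptotic to `(n / κ) ^ (1 / (d - 1))`. -/
theorem result (d : ℕ) (hd : 3 ≤ d) :
    ∃ κ : ℝ, 1 / (d : ℝ) ^ 2 ≤ κ ∧ κ ≤ nu d ∧
      Tendsto (fun r : ℕ => (kap d r : ℝ) / (r : ℝ) ^ (d - 1)) atTop (𝓝 κ) ∧
      ∃ Q : ℕ → ℕ,
        (∀ n, Generic fun T : Tensor d n => borderSubrank T = Q n) ∧
        (∀ n r, (kap d r + 1 + d * r ≤ n → r ≤ Q n) ∧ (n < kap d r → Q n < r)) ∧
        Tendsto (fun n : ℕ => (Q n : ℝ) / (n : ℝ) ^ (1 / ((d : ℝ) - 1))) atTop
          (𝓝 ((1 / κ) ^ (1 / ((d : ℝ) - 1)))) := by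
  obtain ⟨κ, h1, h2, h3, -⟩ := exists_kap_limit hd
  have hκ : 0 < κ := lt_of_lt_of_le (by positivity) h1
  exact ⟨κ, h1, h2, h3, genBorderSubrank d, fun n => generic_borderSubrank (by omega),
    fun n r => gbs_sandwich (by omega), gbs_tendsto hd hκ h3⟩

end Pool.Agent.Results.MP_79bff1_ag.Asymptotics
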