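import Pool.Agent.Lib.MP_79bff1_ag_E.MainU

set_option autoImplicit false

open Pool.Agent.BSub

namespace Pool.Agent.Results.MP_79bff1_ag.NearExact

/-- Let `d ≥ 40`, `n ≥ 3`, and let `R` be the largest `r` with
`∑_{k ≤ r} (k ^ (d - 1) - 1) ≤ d (r n - r (r + 1) / 2)`. The border subrank `Q` of the generic
tensor in `(ℂ ^ n) ^ {⊗ d}` satisfies `R - 1 - 27 R / d ^ 3 ≤ Q ≤ R` (so `Q` is `R - 1` or `R` if
`27 R < d ^ 3`), and `Q = R` if `d ≤ R ≤ d ^ 2 / 6`, for instance if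
`d ^ (d - 1) ≤ n ≤ (d ^ 2 / 6) ^ (d - 1) / d ^ 2`. -/
theorem result (d n : ℕ) (hd : 40 ≤ d) (hn : 3 ≤ n) : ∃ R : ℕ,
    (∀ r : ℕ, r ≤ R ↔
      ∑ k ∈ Finset.range r, ((k + 1) ^ (d - 1) - 1) ≤ d * (r * n - r * (r + 1) / 2)) ∧
    (d ^ (d - 1) ≤ n → 6 ^ (d - 1) * d ^ 2 * n ≤ d ^ (2 * (d - 1)) → d ≤ R ∧ 6 * R ≤ d ^ 2) ∧
    Generic fun T : Tensor d n => borderSubrank T ≤ R ∧
      d ^ 3 * R ≤ d ^ 3 * (borderSubrank T + 1) + 27 * R ∧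
      (27 * R < d ^ 3 → R ≤ borderSubrank T + 1) ∧
      (d ≤ R → 6 * R ≤ d ^ 2 → borderSubrank T = R) := by
  obtain ⟨R, hR, h⟩ := Pool.Agent.BSubE.near_exact (d := d) (n := n) hd hn
  refine ⟨R, hR, fun h1 h2 => ⟨?_, ?_⟩, h.mono fun T hT => ⟨hT.1, hT.2.1, fun h27 => ?_, hT.2.2⟩⟩
  · exact (hR d).mpr (Pool.Agent.BSubE.cond_at_d hd h1)
  · by_contra hc
    have h3 := (hR R).mp le_rfl
    exact absurd h3 (not_le.mpr (Pool.Agent.BSubE.cond_fails hd h2 (not_le.mp hc)))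
  · by_contra hc
    have h1 : borderSubrank T + 1 + 1 ≤ R := by omega
    have h2 : d ^ 3 * (borderSubrank T + 1 + 1) ≤ d ^ 3 * R := Nat.mul_le_mul_left _ h1
    have h3 := hT.2.1
    rw [mul_add (d ^ 3) (borderSubrank T + 1) 1] at h2
    omega

end Pool.Agent.Results.MP_79bff1_ag.NearExact
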