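import Pool.Agent.Lib.MP_79bff1_ag_K.KKap

set_option autoImplicit false

open Pool.Agent.BSub

namespace Pool.Agent.Results.MP_79bff1_ag.ThreeFactorsSharp

/-- Explicit bounds for the border subrank `Q` of the generic tensor in `ℂ^n ⊗ ℂ^n ⊗ ℂ^n`:
`√(8.39 n) - 60 ≤ Q ≤ √(8.4 (n + 1))`, and also `Q ≤ √(9 n + 7) - 3`. -/
theorem result (n : ℕ) (hn : 3 ≤ n) :
    Generic fun T : Tensor 3 n =>
      Real.sqrt (8.39 * n) - 60 ≤ borderSubrank T ∧
        (borderSubrank T : ℝ) ≤ Real.sqrt (8.4 * (n + 1)) ∧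
        (borderSubrank T : ℝ) ≤ Real.sqrt (9 * n + 7) - 3 := by
  refine (generic_borderSubrank (d := 3) (n := n) (by norm_num)).mono ?_
  intro T hT
  obtain ⟨h1, h2⟩ := gbs_three hn
  rw [hT]
  refine ⟨h1, Real.le_sqrt_of_sq_le KK.gbs_sharp, ?_⟩
  have h3 : ((genBorderSubrank 3 n : ℝ) + 3) ^ 2 ≤ 9 * n + 7 := by exact_mod_cast h2
  have := Real.le_sqrt_of_sq_le h3
  linarith

end Pool.Agent.Results.MP_79bff1_ag.ThreeFactorsSharp
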